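import Pool.Agent.MP_81f5b7_pr.H66.Spec

/-! The closure of a small exceptional set is balanced. -/

set_option linter.unusedSectionVars false

namespace Pool.Agent.MP_81f5b7_pr.H66

open Finset
open scoped Classical

namespace LAZY

variable {V : Type} [Fintype V] [DecidableEq V]

/-- the weights of the martingales -/
noncomputable def gw (q : ℝ) (m : ℕ) (a b : C3) (o : Option C3) (t : St V) (c : C3) : ℝ :=
  o.elim (sg a b (rc a t) c) fun c₁ => if c = c₁ then
    (1 - q)⁻¹ ^ (min (∑ c' ∈ univ.erase c₁, t.N c') (Fintype.card V * m) + 1) else 0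

/-- the martingales -/
noncomputable def ms (τ : V → C3) (q : ℝ) (a : C3) (t : ℕ → St V) (W : Finset (ℕ × Sym2 V))
    (g : St V → C3 → ℝ) (j : ℕ) : ℝ :=
  ∑ i ∈ range j, ∑ c, g (t i) c * (lzX τ a (t i) W c - q * lzM τ a (t i) c)

theorem gw_le {q T : ℝ} {m : ℕ} (h0 : 0 ≤ q) (h1 : q ≤ 1 / 2) (hT : tm V q m ≤ T) (a b : C3)
    (o : Option C3) (t : St V) (c : C3) : |gw q m a b o t c| ≤ Real.exp (2 * T + 1) := by
  have k0 : 0 ≤ tm V q m := by unfold tm; positivity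
  have k1 : (1 : ℝ) ≤ Real.exp (2 * T + 1) := Real.one_le_exp (by linarith)
  cases o with
  | none =>
    refine le_trans ?_ k1
    change |sg a b (rc a t) c| ≤ 1
    cases rc a t with
    | none => simp [sg]
    | some c₀ =>
      change |ind _ - ind _| ≤ 1
      rw [abs_le]
      constructor <;> linarith [ind_nonneg (c = -a - c₀), ind_nonneg (c = -b - c₀),
        ind_le_one (c = -a - c₀), ind_le_one (c = -b - c₀)]
  | some c₁ =>
    simp only [gw, Option.elim]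
    split_ifs
    · have k2 : (1 - q)⁻¹ ≤ Real.exp (2 * q) := by
        refine le_trans ?_ (Real.add_one_le_exp _)
        rw [inv_le_iff_one_le_mul₀ (by linarith)]
        nlinarith
      have k3 : 0 ≤ (1 - q)⁻¹ := inv_nonneg.2 (by linarith)
      rw [abs_of_nonneg (pow_nonneg k3 _)]
      refine (pow_le_pow_left₀ k3 k2 _).trans ?_
      rw [← Real.exp_nat_mul, Real.exp_le_exp]
      have k4 : ((min (∑ c' ∈ univ.erase c₁, t.N c') (Fintype.card V * m) + 1 : ℕ) : ℝ) ≤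
          Fintype.card V * m + 1 := by exact_mod_cast Nat.succ_le_succ (min_le_right _ _)
      unfold tm at hT
      nlinarith [mul_le_mul_of_nonneg_right k4 h0]
    · rw [abs_zero]
      linarith

theorem conc (hC : SCONC) (τ : V → C3) (a : C3) (m : ℕ) (A : Finset V) (σ : V → C3) {q : ℝ}
    (g : St V → C3 → ℝ) {G u x : ℝ} (k : ℕ) (h0 : 0 ≤ q) (h1 : q ≤ 1) (hg : ∀ t c, |g t c| ≤ G)
    (hu : 0 ≤ u) (huG : u * G ≤ 1) :
    Ex q (range m ×ˢ univ) (fun W => ind (x ≤ |ms τ q a (lz τ a m A σ W) W g k|)) ≤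
      2 * Real.exp (-(u * x) + (u * G) ^ 2 * (q * Fintype.card V * k)) := by
  have k1 := hC V τ a m A σ q g G u x k h0 h1 hg hu huG
  have k2 := hC V τ a m A σ q (fun t c => -g t c) G u x k h0 h1 (by simpa using hg) hu huG
  rw [two_mul]
  refine le_trans ?_ (add_le_add k1 k2)
  rw [← Ex_add]
  refine Ex_mono h0 h1 fun W _ => le_trans (ind_mono fun h => ?_) (ind_or _ _)
  simpa only [ms, neg_mul, sum_neg_distrib] using le_abs.1 h

theorem det (hS : SSTEP) (hR : STRU) (hP : SPRI) (hC : SCROSS) {τ σ : V → C3} {Z A : Finset V}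
    {q x η T : ℝ} {m s : ℕ} {W : Finset (ℕ × Sym2 V)} {a b : C3} (h0 : 0 < q) (h1 : q < 1)
    (hT : tm V q m ≤ T) (hs : 0 < s) (ok : Ok τ Z η) (hσ : σ ∈ S0 τ Z)
    (hA : (A.card : ℝ) ≤ η * Fintype.card V) (hZ : Z ⊆ A) (hst : Star τ Z σ A (rows m W))
    (hab : a ≠ b) (hN : NM (rows m W)) (hE : ∀ B ∈ (rows m W).take (s + 1), ¬B.Nonempty)
    (hm : ∀ o, ∀ j ≤ (Fintype.card V + 1) * m,
      |ms τ q a (lz τ a m A σ W) W (gw q m a b o) j| ≤ x) :
    ∃ D, A ⊆ D ∧ Cld τ Z σ D (rows m W) ∧ (sz σ D a : ℝ) - sz σ D b ≤ η * Fintype.card V + 1 +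
      Fintype.card V / s + 2 * x + T * (4 * η * Fintype.card V + 2 * x) := by
  obtain ⟨D, d1, d2, d3⟩ := hR V τ Z a m A σ W hσ hZ hst
  refine ⟨D, d1, d2, ?_⟩
  obtain ⟨t, ht⟩ : ∃ t, t = lz τ a m A σ W := ⟨_, rfl⟩
  have st := hS V τ a m A σ W t ht
  have pr := fun i => hP V τ a b m s A σ W i hs hN hE
  rw [← d3, ← d3]
  rw [← ht] at hm pr ⊢
  have hx : 0 ≤ x := (abs_nonneg _).trans (hm none 0 (Nat.zero_le _))
  have key := hC ((Fintype.card V + 1) * m) (fun i => rc a (t i)) (fun i c => (t i).U τ c)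
    (fun i c => lzX τ a (t i) W c) (fun i c => lzM τ a (t i) c) (fun i c => (t i).L c)
    (fun i c => (t i).N c) q x (A.card + 1 + Fintype.card V / s) a b hab h0 h1
    (fun _ _ => Nat.cast_nonneg _) (fun _ _ => Nat.cast_nonneg _)
    (fun i c => by exact_mod_cast (st i c).1) (fun i c h => by exact_mod_cast (st i c).2.1 h)
    (fun i c => by unfold lzM; split_ifs <;> simp) (fun c => (st 0 c).2.2.2.2.2.1)
    (fun i c => (st i c).2.2.1) (fun i c => by
      rw [(st i c).2.2.2.1]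
      cases rc a (t i) <;> simp) (hm none) (fun c j hj => by
      refine le_trans (le_of_eq (congrArg abs (sum_congr rfl fun i _ => ?_))) (hm (some c) j hj)
      simp only [gw, Option.elim, ite_mul, zero_mul, sum_ite_eq', mem_univ, if_true]
      rw [min_eq_left ((sum_le_sum_of_subset (erase_subset _ _)).trans (st i c).2.2.2.2.1)])
    fun j _ => pr j
  have k1 : q * (t ((Fintype.card V + 1) * m)).N (-a - b) ≤ T := by
    have : ((t ((Fintype.card V + 1) * m)).N (-a - b) : ℝ) ≤ Fintype.card V * m := by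
      exact_mod_cast (single_le_sum (fun _ _ => Nat.zero_le _) (mem_univ _)).trans
        (st _ a).2.2.2.2.1
    unfold tm at hT
    nlinarith [mul_le_mul_of_nonneg_left this h0.le]
  have k2 : ∀ c, (1 / 3 - 2 * η) * Fintype.card V ≤ ((t 0).U τ c : ℝ) ∧
      ((t 0).U τ c : ℝ) ≤ (1 / 3 + 2 * η) * Fintype.card V := fun c => by
    rw [(st 0 c).2.2.2.2.2.2]
    constructor
    · have : ((Ty τ Z c).card : ℝ) ≤ (univ.filter fun y => y ∉ A ∧ τ y = c).card + A.card := by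
        exact_mod_cast (card_le_card fun v hv => by
          by_cases h : v ∈ A <;> simp [h, (mem_Ty.1 hv).2]).trans (card_union_le _ _)
      linarith [ok c]
    · exact le_trans (Nat.cast_le.2 (card_le_card fun v hv =>
        mem_Ty.2 ((mem_filter.1 hv).2.imp_left fun h h' => h (hZ h')))) (ok.le.2 c)
  have k3 : |((t 0).U τ a : ℝ) - (t 0).U τ b| ≤ 4 * η * Fintype.card V := by
    rw [abs_le]
    constructor <;> linarith [(k2 a).1, (k2 a).2, (k2 b).1, (k2 b).2]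
  have k4 := mul_le_mul k1 (add_le_add_left k3 (2 * x)) (by positivity)
    (le_trans (by positivity) k1)
  linarith

/-- the labels given by a set of pairs -/
noncomputable def col (Γ : Finset (V × C3)) (v : V) : C3 :=
  if h : ∃ c, (v, c) ∈ Γ then h.choose else 0

theorem lz_eq (τ : V → C3) (a : C3) (m : ℕ) (A : Finset V) (σ : V → C3) :
    lz τ a m A σ = lz τ a m ((A.image fun v => (v, σ v)).image Prod.fst)
      (col (A.image fun v => (v, σ v))) := by
  funext W k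
  unfold lz
  congr 2
  funext v
  rw [image_image]
  by_cases h : v ∈ A
  · have k : ∃ c, (v, c) ∈ A.image fun v => (v, σ v) := ⟨_, mem_image_of_mem _ h⟩
    obtain ⟨w, -, e⟩ := mem_image.1 k.choose_spec
    obtain rfl : w = v := congrArg Prod.fst e
    rw [if_pos h, if_pos (by simpa using h), col, dif_pos k]
    exact congrArg (some ·.2) e
  · rw [if_neg h, if_neg (by simpa using h)]

theorem small {c y η : ℝ} (hy : 0 < y) (hy1 : y ≤ 1) (hyc : 12 * y ≤ c) (hη : 0 ≤ η)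
    (hηc : 4 * η ≤ c * y) :
    (((univ : Finset (V × C3)).powerset.filter fun Γ =>
      (Γ.card : ℝ) ≤ η * Fintype.card V).card : ℝ) ≤ Real.exp (c / 2 * Fintype.card V) := by
  refine (card_small _ hy hy1).trans ?_
  have n0 : (0 : ℝ) ≤ Fintype.card V := Nat.cast_nonneg _
  rw [div_le_iff₀ (Real.rpow_pos_of_pos hy _), Real.rpow_def_of_pos hy, ← Real.exp_add]
  refine (pow_le_pow_left₀ (by linarith) (by linarith [Real.add_one_le_exp y]) _).trans
    (b := Real.exp y ^ _) ?_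
  rw [← Real.exp_nat_mul, Real.exp_le_exp, card_univ, Fintype.card_prod, Fintype.card_fin]
  push_cast
  have k1 := Real.one_sub_inv_le_log_of_pos hy
  have k2 : η * y⁻¹ ≤ c / 4 := by
    rw [mul_inv_le_iff₀ hy]
    linarith
  have k3 : 3 * y ≤ c / 2 + Real.log y * η := by nlinarith
  nlinarith [mul_le_mul_of_nonneg_left k3 n0]

theorem ar1 {ε η T x n s : ℝ} (hε : 0 < ε) (s0 : 0 < s) (hs : 8 < s * ε) (n6 : s ≤ n)
    (η2 : η * (4 * (1 + 4 * T)) ≤ ε) (hx : 8 * (T + 1) * x = ε) :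
    η * n + 1 + n / s + 2 * (x * n) + T * (4 * η * n + 2 * (x * n)) < ε * n := by
  have n0 : 0 ≤ n := by linarith
  have d5 : n / s ≤ ε / 8 * n := by
    rw [div_le_iff₀ s0]
    nlinarith
  have d6 := mul_le_mul_of_nonneg_right η2 n0
  have d7 := mul_le_mul_of_nonneg_right n6 hε.le
  have d8 : 8 * (T + 1) * x * n = ε * n := by rw [hx]
  linarith

theorem ar2 {T q n m : ℝ} (hT1 : 1 ≤ T) (n7 : 2 ≤ n) (m0 : 0 ≤ m) (q4 : q * n ^ 4 = 1)
    (hT : m * q * n ≤ T) : (n + 1) * m + 1 ≤ 3 * T * n ^ 4 := by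
  have e1 : m ≤ T * n ^ 3 := by
    have := mul_le_mul_of_nonneg_right hT (show 0 ≤ n ^ 3 by positivity)
    rwa [show m * q * n * n ^ 3 = m * (q * n ^ 4) by ring, q4, mul_one] at this
  have e2 : 1 ≤ T * n ^ 4 := one_le_mul_of_one_le_of_one_le hT1 (one_le_pow₀ (by linarith))
  have e3 : (n + 1) * m ≤ 2 * n * (T * n ^ 3) := mul_le_mul (by linarith) e1 m0 (by linarith)
  linarith

theorem ar3 {T q n m j u G x c : ℝ} (hT1 : 1 ≤ T) (n7 : 2 ≤ n) (q0 : 0 ≤ q) (u0 : 0 < u)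
    (hT : m * q * n ≤ T) (e1 : j ≤ (n + 1) * m) (u2 : u * (4 * T * G ^ 2) ≤ x)
    (hc : 2 * c = u * x) : -(u * (x * n)) + (u * G) ^ 2 * (q * n * j) ≤ -(c * n) := by
  have n0 : 0 < n := by linarith
  have e2 : q * n * j ≤ 2 * T * n := by
    have := mul_le_mul hT (show n + 1 ≤ 2 * n by linarith) (by linarith) (by linarith)
    linarith [mul_le_mul_of_nonneg_left e1 (mul_nonneg q0 n0.le)]
  have e3 := mul_le_mul_of_nonneg_left e2 (sq_nonneg (u * G))
  have e4 := mul_le_mul_of_nonneg_left u2 (mul_pos u0 n0).le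
  have e5 : 2 * c * n = u * x * n := by rw [hc]
  linarith

theorem ar4 {T n c κ : ℝ} (n0 : 0 < n) (c0 : 0 < c) (κ0 : 0 < κ)
    (n5 : 216 * T * 120 / ((c / 2) ^ 5 * κ) ≤ n) :
    Real.exp (c / 2 * n) * (36 * (3 * T * n ^ 4)) * (2 * Real.exp (-(c * n))) ≤ κ := by
  have b4 : Real.exp (c / 2 * n) * Real.exp (-(c * n)) = (Real.exp (c / 2 * n))⁻¹ := by
    rw [← Real.exp_add, ← Real.exp_neg]
    congr 1
    ring
  have b6 : 216 * T * n ^ 4 * (Real.exp (c / 2 * n))⁻¹ ≤ κ := by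
    rw [mul_inv_le_iff₀ (Real.exp_pos _)]
    refine le_trans ?_ (mul_le_mul_of_nonneg_left
      (Real.pow_div_factorial_le_exp (c / 2 * n) (by positivity) 5) κ0.le)
    rw [div_le_iff₀ (by positivity)] at n5
    rw [show ((Nat.factorial 5 : ℕ) : ℝ) = 120 by simp [Nat.factorial]]
    linarith [mul_le_mul_of_nonneg_right n5 (show 0 ≤ n ^ 4 by positivity)]
  rw [← b4] at b6
  linarith

end LAZY

open LAZY in
theorem rowLAZY : OfLAZY := by
  intro hN hS hR hP hC hX ε T₀ hε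
  obtain ⟨T, hT1, hT0⟩ : ∃ T : ℝ, 1 ≤ T ∧ T₀ ≤ T := ⟨_, le_max_left _ _, le_max_right _ _⟩
  obtain ⟨G, hG⟩ : ∃ G, G = Real.exp (2 * T + 1) := ⟨_, rfl⟩
  have G0 : 0 < G := hG ▸ Real.exp_pos _
  obtain ⟨x, x0, hx⟩ : ∃ x : ℝ, 0 < x ∧ 8 * (T + 1) * x = ε :=
    ⟨ε / (8 * (T + 1)), by positivity, by field_simp⟩
  obtain ⟨u, u0, u1, u2⟩ : ∃ u : ℝ, 0 < u ∧ u * G ≤ 1 ∧ u * (4 * T * G ^ 2) ≤ x :=
    ⟨min (1 / G) (x / (4 * T * G ^ 2)), by positivity, (le_div_iff₀ G0).1 (min_le_left _ _),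
      (le_div_iff₀ (by positivity)).1 (min_le_right _ _)⟩
  obtain ⟨c, c0, hc⟩ : ∃ c : ℝ, 0 < c ∧ 2 * c = u * x := ⟨u * x / 2, by positivity, by ring⟩
  obtain ⟨y, y0, y1, y2⟩ : ∃ y : ℝ, 0 < y ∧ y ≤ 1 ∧ 12 * y ≤ c :=
    ⟨min 1 (c / 12), by positivity, min_le_left _ _, by linarith [min_le_right 1 (c / 12)]⟩
  obtain ⟨η, η0, η1, η2⟩ : ∃ η : ℝ, 0 < η ∧ 4 * η ≤ c * y ∧ η * (4 * (1 + 4 * T)) ≤ ε :=
    ⟨min (c * y / 4) (ε / (4 * (1 + 4 * T))), by positivity,
      by linarith [min_le_left (c * y / 4) (ε / (4 * (1 + 4 * T)))],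
      (le_div_iff₀ (by positivity)).1 (min_le_right _ _)⟩
  refine ⟨η, η0, fun κ κ0 => ?_⟩
  obtain ⟨s, hs⟩ := exists_nat_gt (8 / ε)
  have s0 : (0 : ℝ) < s := lt_trans (by positivity) hs
  rw [div_lt_iff₀ hε] at hs
  obtain ⟨N₁, hN₁⟩ := hN T (κ / 2) (s + 1) (by positivity)
  obtain ⟨N₂, hN₂⟩ := exists_nat_ge (216 * T * 120 / ((c / 2) ^ 5 * (κ / 2)))
  refine ⟨max (max N₁ N₂) (max s 2), fun V _ _ τ Z q m hn ok hq hT => ?_⟩
  replace hT := hT.trans hT0
  simp only [max_le_iff] at hn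
  obtain ⟨⟨n1, n2⟩, n3, n4⟩ := hn
  obtain ⟨q0, q1, q2, -⟩ := hq.le n4
  have m1 := hN₁ V q m n1 hq hT
  have m2 := small (V := V) y0 y1 y2 η0.le η1
  have hg := fun (h : q ≤ 1 / 2) => hG ▸ gw_le (V := V) q0 h hT
  have hd := fun σ A W a b (h : q < 1) => det (σ := σ) (A := A) (W := W) (a := a) (b := b)
    (x := x * Fintype.card V) hS hR hP hX hq.1 h hT (Nat.cast_pos.1 s0) ok
  unfold tm at hT
  have n5 : (216 * T * 120 / ((c / 2) ^ 5 * (κ / 2)) : ℝ) ≤ Fintype.card V :=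
    hN₂.trans (Nat.cast_le.2 n2)
  have n6 : (s : ℝ) ≤ Fintype.card V := Nat.cast_le.2 n3
  have n7 : (2 : ℝ) ≤ Fintype.card V := by exact_mod_cast n4
  have q3 : q ≤ 1 / 2 := by
    have : (1 : ℝ) ≤ (Fintype.card V : ℝ) ^ 2 := by nlinarith
    linarith [mul_le_mul_of_nonneg_left this q0]
  obtain ⟨I, hI⟩ : ∃ I : Finset (Finset (V × C3) × (C3 × C3 × Option C3) × ℕ), I =
    ((univ : Finset (V × C3)).powerset.filter fun Γ => (Γ.card : ℝ) ≤ η * Fintype.card V) ×ˢ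
      univ ×ˢ range ((Fintype.card V + 1) * m + 1) := ⟨_, rfl⟩
  refine le_trans (b := κ / 2 + ∑ i ∈ I, Ex q (range m ×ˢ univ) fun W => ind (x * Fintype.card V ≤
    |ms τ q i.2.1.1 (lz τ i.2.1.1 m (i.1.image Prod.fst) (col i.1) W) W
      (gw q m i.2.1.1 i.2.1.2.1 i.2.1.2.2) i.2.2|)) ?_ ?_
  · refine le_trans ?_ (add_le_add_left m1 _)
    rw [PL, PL, EL_rows, EL_rows, ← Ex_sum, ← Ex_add]
    refine Ex_mono q0 q1 fun W _ => le_trans (ind_mono ?_)
      ((ind_or _ _).trans (add_le_add_right (ind_exists _ _) _))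
    rintro ⟨σ, hσ, A, hA, hZ, hst, a, b, h⟩
    by_contra k
    push Not at k
    obtain ⟨⟨k1, k2⟩, k3⟩ := k
    have hab : a ≠ b := fun e => by
      have := h univ (subset_univ _) fun _ _ _ _ _ _ _ _ => mem_univ _
      rw [e, sub_self] at this
      exact this.not_gt (mul_pos hε (by linarith))
    obtain ⟨D, d1, d2, d3⟩ := hd σ A W a b (by linarith) hσ hA hZ hst hab k1
      (fun B hB => by simp [k2 B hB]) fun o j hj => by
        rw [lz_eq]
        refine (k3 (_, (a, b, o), j) ?_).le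
        simp only [hI, mem_product, mem_filter, mem_powerset, subset_univ, mem_univ, mem_range,
          true_and]
        exact ⟨(Nat.cast_le.2 card_image_le).trans hA, by omega⟩
    exact absurd ((h D d1 d2).trans d3) (ar1 hε s0 hs n6 η2 hx).not_ge
  · have b1 : (I.card : ℝ) ≤ Real.exp (c / 2 * Fintype.card V) *
        (36 * (3 * T * (Fintype.card V : ℝ) ^ 4)) := by
      rw [hI, card_product, card_product, card_range, Nat.cast_mul]
      refine mul_le_mul m2 ?_ (Nat.cast_nonneg _) (Real.exp_pos _).le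
      rw [show (univ : Finset (C3 × C3 × Option C3)).card = 36 by simp]
      push_cast
      linarith [ar2 hT1 n7 (Nat.cast_nonneg m) hq.2 hT]
    have b2 := sum_le_card_nsmul I _ (2 * Real.exp (-(c * Fintype.card V))) fun i hi =>
      (conc hC τ i.2.1.1 m (i.1.image Prod.fst) (col i.1) _ (x := x * Fintype.card V) i.2.2 q0 q1
        (hg q3 i.2.1.1 i.2.1.2.1 i.2.1.2.2) u0.le u1).trans (mul_le_mul_of_nonneg_left
          (Real.exp_le_exp.2 (ar3 hT1 n7 q0 u0 hT (by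
            rw [hI, mem_product, mem_product, mem_range, Nat.lt_succ_iff] at hi
            exact_mod_cast hi.2.2) u2 hc)) zero_le_two)
    rw [nsmul_eq_mul] at b2
    linarith [mul_le_mul_of_nonneg_right b1
      (show 0 ≤ 2 * Real.exp (-(c * Fintype.card V)) by positivity),
      ar4 (by linarith) c0 (half_pos κ0) n5]

end Pool.Agent.MP_81f5b7_pr.H66
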